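import Mathlib
import Pool.Agent.H652G.Defs
import Pool.Agent.H652G.Idx

/-!
# Statements about γ-sets and Hausdorff measures of all dimensions in the extension

The conventions are those of `Pool.Agent.H652G.Defs`.
-/

namespace Pool.Agent.Y530.KG

open Pool.Agent.Helper669.Forcing Pool.Agent.H652R2.Defs Pool.Agent.H652G Pool.Agent.H652G.Defs

universe u

variable {P : Type u} [Preorder P]

/-- `I` names a sequence of members of `X`, and the sum of the `s`-th powers of their sizes is at
most `c`. -/
def PowLe {X : Type} (sz : X → ℝ) (s : ℝ) (I : ℕ → X → Set P) (c : ℝ) : Set P :=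
  fand (IsFun I) (fall fun l : List X =>
    fimp (fall fun i : ℕ => fall fun J : X => fall fun _ : l[i]? = some J => meets (I i J))
      (fground ((l.map fun J => sz J ^ s).sum ≤ c)))

/-- The `s`-dimensional Hausdorff measure of the set of reals `{F z : z ∈ Z}` is zero: there are
coverings by open intervals such that the sum of the `s`-th powers of the lengths is arbitrarily
small. -/
def IsNull {Z : Type} (s : ℝ) (F : Z → ℕ → ℚ → Set P) : Set P :=
  fex fun I : ℕ → ℕ → ℚ × ℚ → Set P => fall fun m : ℕ =>
    fand (PowLe len s (I m) ((1 / 2) ^ m))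
      (fall fun z => fex fun n : ℕ => fex fun J : ℚ × ℚ =>
        fand (meets (I m n J)) (InIoo (F z) J.1 J.2))

/-- The `t`-dimensional Hausdorff measure of the product of the sets of reals `{E y : y ∈ Y}` and
`{F z : z ∈ Z}` is zero: there are coverings by open rectangles such that the sum of the `t`-th
powers of the diameters is arbitrarily small. -/
def IsNullProd {Y Z : Type} (t : ℝ) (E : Y → ℕ → ℚ → Set P) (F : Z → ℕ → ℚ → Set P) : Set P :=
  fex fun I : ℕ → ℕ → (ℚ × ℚ) × (ℚ × ℚ) → Set P => fall fun m : ℕ =>
    fand (PowLe diam t (I m) ((1 / 2) ^ m))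
      (fall fun y => fall fun z => fex fun n : ℕ => fex fun B : (ℚ × ℚ) × (ℚ × ℚ) =>
        fand (meets (I m n B)) (fand (InIoo (E y) B.1.1 B.1.2) (InIoo (F z) B.2.1 B.2.2)))

/-- All sets of reals `{E i : i < ω₁}` satisfy `S₁(Ω, Γ)`. -/
def AllGamma (P : Type) [Preorder P] : Set P :=
  fall fun E : W1 → ℕ → ℚ → Set P => fimp (fall fun i => IsReal (E i)) (IsGammaSet E)

/-- Every set of reals satisfying `S₁(Ω, Γ)` is contained in a set `{x i : i < ω₁}`. -/
def GammaSmall (P : Type) [Preorder P] : Set P :=
  fall fun Y : Type => fall fun E : Y → ℕ → ℚ → Set P =>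
    fimp (fand (fall fun y => IsReal (E y)) (IsGammaSet E))
      (fex fun x : W1 → ℕ → ℚ → Set P =>
        fand (fall fun i => IsReal (x i)) (fall fun y => fex fun i => SameR (E y) (x i)))

/-- Multiplication with sets satisfying `S₁(Ω, Γ)` does not raise the Hausdorff dimension: for
every set of reals `{E y : y ∈ Y}` satisfying `S₁(Ω, Γ)`, every set of reals `{F z : z ∈ Z}` and
all real numbers `0 < s < t`, if the `s`-dimensional Hausdorff measure of `{F z : z ∈ Z}` is zero,
then the `t`-dimensional Hausdorff measure of the product is zero. -/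
def DimProd (P : Type) [Preorder P] : Set P :=
  fall fun Y : Type => fall fun E : Y → ℕ → ℚ → Set P =>
    fimp (fand (fall fun y => IsReal (E y)) (IsGammaSet E))
      (fall fun Z : Type => fall fun F : Z → ℕ → ℚ → Set P =>
        fimp (fall fun z => IsReal (F z))
          (fall fun s : ℝ => fall fun t : ℝ => fall fun _ : 0 < s => fall fun _ : s < t =>
            fimp (IsNull s F) (IsNullProd t E F)))

end Pool.Agent.Y530.KG
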