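import Mathlib
import Pool.Agent.H652G.Unc
import Pool.Agent.Y530.KG.Defs

/-!
# Products: the estimate for the sums, for all pairs of exponents
-/

namespace Pool.Agent.Y530.KG

open Pool.Agent.Helper669.Forcing Pool.Agent.H652R2.Defs Pool.Agent.H652G Pool.Agent.H652G.Defs

theorem len_nonneg (J : ℚ × ℚ) : 0 ≤ len J := le_max_right _ _

theorem diam_nonneg (B : (ℚ × ℚ) × (ℚ × ℚ)) : 0 ≤ diam B := Real.sqrt_nonneg _

/-- the weight of `J` -/
noncomputable def aa (s t : ℝ) (J : ℚ × ℚ) : ℝ := 2 ^ t * len J ^ (t - s)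

variable {s t : ℝ}

theorem aa_nonneg (J : ℚ × ℚ) : 0 ≤ aa s t J :=
  mul_nonneg (Real.rpow_nonneg (by norm_num) _) (Real.rpow_nonneg (len_nonneg J) _)

theorem aa_pos {J : ℚ × ℚ} (h : 0 < len J) : 0 < aa s t J :=
  mul_pos (Real.rpow_pos_of_pos (by norm_num) _) (Real.rpow_pos_of_pos h _)

theorem diam_rpow_le (hs : 0 < s) (hst : s < t) {K J : ℚ × ℚ} (hJ : 0 < len J)
    (h : len K ≤ len J) : diam (K, J) ^ t ≤ aa s t J * len J ^ s := by
  have h0 := len_nonneg K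
  have h0' := len_nonneg J
  have h1 : diam (K, J) ≤ 2 * len J := by
    unfold diam
    rw [Real.sqrt_le_iff]
    refine ⟨by positivity, ?_⟩
    show len K ^ 2 + len J ^ 2 ≤ _
    nlinarith
  calc diam (K, J) ^ t ≤ (2 * len J) ^ t :=
        Real.rpow_le_rpow (diam_nonneg _) h1 (hs.le.trans hst.le)
    _ = 2 ^ t * len J ^ t := Real.mul_rpow (by norm_num) h0'
    _ = aa s t J * len J ^ s := by
        rw [aa, mul_assoc, ← Real.rpow_add hJ]
        congr 2
        ring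

open Classical in
/-- the class of `J` -/
noncomputable def cl (s t : ℝ) (J : ℚ × ℚ) : ℕ :=
  if h : ∃ j : ℕ, (1 / 2 : ℝ) ^ (j + 1) < aa s t J then Nat.find h else 0

theorem exists_cl {J : ℚ × ℚ} (h : 0 < aa s t J) : ∃ j : ℕ, (1 / 2 : ℝ) ^ (j + 1) < aa s t J := by
  obtain ⟨j, hj⟩ := exists_pow_lt_of_lt_one h (show (1 / 2 : ℝ) < 1 by norm_num)
  exact ⟨j, (pow_le_pow_of_le_one (by norm_num) (by norm_num) (Nat.le_succ j)).trans_lt hj⟩

theorem cl_spec {J : ℚ × ℚ} (h : 0 < aa s t J) : (1 / 2 : ℝ) ^ (cl s t J + 1) < aa s t J := by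
  have h1 := exists_cl h
  rw [cl, dif_pos h1]
  exact Nat.find_spec h1

theorem le_of_lt_cl {J : ℚ × ℚ} {j : ℕ} (h : j < cl s t J) :
    aa s t J ≤ (1 / 2 : ℝ) ^ (j + 1) := by
  by_cases h1 : ∃ j : ℕ, (1 / 2 : ℝ) ^ (j + 1) < aa s t J
  · rw [cl, dif_pos h1] at h
    exact not_lt.1 (Nat.find_min h1 h)
  · rw [cl, dif_neg h1] at h
    omega

theorem le_cl {J : ℚ × ℚ} (h : 0 < aa s t J) {b : ℕ} (hb : aa s t J ≤ (1 / 2 : ℝ) ^ b) :
    b ≤ cl s t J := by
  by_contra hlt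
  have h1 := cl_spec h
  have h2 : (1 / 2 : ℝ) ^ b ≤ (1 / 2) ^ (cl s t J + 1) :=
    pow_le_pow_of_le_one (by norm_num) (by norm_num) (by omega)
  linarith

theorem cl_mul (J : ℚ × ℚ) : (cl s t J : ℝ) * aa s t J ≤ 1 := by
  rcases Nat.eq_zero_or_pos (cl s t J) with h | h
  · rw [h]; simp
  · have h1 := le_of_lt_cl (show cl s t J - 1 < cl s t J by omega)
    rw [Nat.sub_add_cancel h] at h1
    have h2 : (cl s t J : ℝ) ≤ 2 ^ (cl s t J) := by exact_mod_cast (Nat.lt_two_pow_self).le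
    have h3 : (2 : ℝ) ^ (cl s t J) * (1 / 2) ^ (cl s t J) = 1 := by
      rw [← mul_pow]; norm_num
    rw [← h3]
    exact mul_le_mul h2 h1 (aa_nonneg J) (by positivity)

/-- the precision at `n` -/
noncomputable def dd (s t : ℝ) (n : ℕ) : ℝ := ((1 / 2 : ℝ) ^ (n + 1) / 2 ^ t) ^ (1 / (t - s))

theorem dd_pos (n : ℕ) : 0 < dd s t n := by
  unfold dd
  have : (0 : ℝ) < 2 ^ t := Real.rpow_pos_of_pos (by norm_num) _
  exact Real.rpow_pos_of_pos (by positivity) _

theorem dd_le (hst : s < t) {J : ℚ × ℚ} (h : 0 < len J) : dd s t (cl s t J) ≤ len J := by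
  have h1 := cl_spec (aa_pos (s := s) (t := t) h)
  have h2 : (0 : ℝ) < 2 ^ t := Real.rpow_pos_of_pos (by norm_num) _
  have h3 : (1 / 2 : ℝ) ^ (cl s t J + 1) / 2 ^ t ≤ len J ^ (t - s) := by
    rw [div_le_iff₀ h2, mul_comm]
    exact h1.le
  have h4 : 0 < t - s := by linarith
  calc dd s t (cl s t J) ≤ (len J ^ (t - s)) ^ (1 / (t - s)) :=
        Real.rpow_le_rpow (by positivity) h3 (by positivity)
    _ = len J := by
        rw [← Real.rpow_mul h.le, mul_one_div_cancel h4.ne', Real.rpow_one]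

/-- `v` codes a list of at most `n` intervals of length at most `dd s t n` -/
def Vld (s t : ℝ) (n v : ℕ) : Prop := (dl v).length ≤ n ∧ ∀ K ∈ dl v, len K ≤ dd s t n

open Classical in
/-- the box number `c` -/
noncomputable def BX (s t : ℝ) (v : ℕ) (J : ℚ × ℚ) (c : ℕ) : (ℚ × ℚ) × (ℚ × ℚ) :=
  if 0 < len J ∧ Vld s t (cl s t J) v then ((dl v)[c]?.elim ((0, 0), (0, 0)) fun K => (K, J))
    else ((0, 0), (0, 0))

theorem diam_zero : diam ((0, 0), (0, 0)) = 0 := by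
  simp [diam, len]

theorem BX_le (hs : 0 < s) (hst : s < t) (v : ℕ) (J : ℚ × ℚ) (c : ℕ) :
    diam (BX s t v J c) ^ t ≤ if c < cl s t J then aa s t J * len J ^ s else 0 := by
  have h0 : (0 : ℝ) ^ t = 0 := Real.zero_rpow (by linarith)
  have hpos : 0 ≤ aa s t J * len J ^ s :=
    mul_nonneg (aa_nonneg J) (Real.rpow_nonneg (len_nonneg J) _)
  have hz : diam ((0, 0), (0, 0)) ^ t ≤ if c < cl s t J then aa s t J * len J ^ s else 0 := by
    rw [diam_zero, h0]
    split_ifs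
    · exact hpos
    · exact le_rfl
  unfold BX
  split_ifs with h h'
  · rcases h1 : (dl v)[c]? with _ | K
    · simpa [h'] using hz
    · obtain ⟨h2, h3⟩ := List.getElem?_eq_some_iff.1 h1
      exact diam_rpow_le hs hst h.1
        ((h.2.2 K (by rw [← h3]; exact List.getElem_mem h2)).trans (dd_le hst h.1))
  · have h1 : (dl v)[c]? = none := List.getElem?_eq_none (by have := h.2.1; omega)
    rw [h1]
    simpa [h'] using hz
  · simpa [*] using hz
  · simpa [*] using hz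

theorem sum_BX_le (hs : 0 < s) (hst : s < t) (v : ℕ) (J : ℚ × ℚ) (L : ℕ) :
    ∑ c ∈ Finset.range L, diam (BX s t v J c) ^ t ≤ len J ^ s := by
  have h1 : ∑ c ∈ Finset.range L, diam (BX s t v J c) ^ t ≤
      ∑ c ∈ Finset.range L, if c < cl s t J then aa s t J * len J ^ s else 0 :=
    Finset.sum_le_sum fun c _ => BX_le hs hst v J c
  have hl : 0 ≤ len J ^ s := Real.rpow_nonneg (len_nonneg J) _
  have hpos : 0 ≤ aa s t J * len J ^ s := mul_nonneg (aa_nonneg J) hl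
  refine h1.trans ?_
  rw [← Finset.sum_filter, Finset.sum_const, nsmul_eq_mul]
  have : (Finset.filter (fun c => c < cl s t J) (Finset.range L)).card ≤
      (Finset.range (cl s t J)).card := by
    apply Finset.card_le_card
    intro c hc
    rw [Finset.mem_filter] at hc
    exact Finset.mem_range.2 hc.2
  rw [Finset.card_range] at this
  calc ((Finset.filter (fun c => c < cl s t J) (Finset.range L)).card : ℝ) *
        (aa s t J * len J ^ s) ≤ (cl s t J : ℝ) * (aa s t J * len J ^ s) :=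
        mul_le_mul_of_nonneg_right (by exact_mod_cast this) hpos
    _ = ((cl s t J : ℝ) * aa s t J) * len J ^ s := by ring
    _ ≤ 1 * len J ^ s := mul_le_mul_of_nonneg_right (cl_mul J) hl
    _ = len J ^ s := one_mul _

/-- the triple coded by `N` -/
def tr (N : ℕ) : ℕ × ℕ × ℕ := (N.unpair.1, (N.unpair.2).unpair)

theorem tr_inj {N N' : ℕ} (h : tr N = tr N') : N = N' := by
  have h1 : (tr N).1 = (tr N').1 := by rw [h]
  have h2 : (tr N).2 = (tr N').2 := by rw [h]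
  change N.unpair.1 = N'.unpair.1 at h1
  change (N.unpair.2).unpair = (N'.unpair.2).unpair at h2
  have h3 : N.unpair.2 = N'.unpair.2 := by
    rw [← Nat.pair_unpair N.unpair.2, h2, Nat.pair_unpair]
  rw [← Nat.pair_unpair N, h1, h3, Nat.pair_unpair]

theorem tr_surj (β n c : ℕ) : tr (Nat.pair β (Nat.pair n c)) = (β, n, c) := by
  simp [tr]

theorem tr_lt {N L : ℕ} (h : N < L) : (tr N).1 < L ∧ (tr N).2.1 < L ∧ (tr N).2.2 < L := by
  have h1 := Nat.unpair_left_le N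
  have h2 := Nat.unpair_right_le N
  have h3 := Nat.unpair_left_le N.unpair.2
  have h4 := Nat.unpair_right_le N.unpair.2
  refine ⟨lt_of_le_of_lt h1 h, lt_of_le_of_lt (h3.trans h2) h, lt_of_le_of_lt (h4.trans h2) h⟩

theorem geom_le (m L : ℕ) : ∑ β ∈ Finset.range L, (1 / 2 : ℝ) ^ (m + 1 + β) ≤ (1 / 2) ^ m := by
  have h : ∀ L : ℕ, ∑ β ∈ Finset.range L, (1 / 2 : ℝ) ^ (m + 1 + β) =
      (1 / 2) ^ m - (1 / 2) ^ (m + L) := by
    intro L
    induction L with
    | zero => simp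
    | succ L ih =>
      rw [Finset.sum_range_succ, ih]
      have : (1 / 2 : ℝ) ^ (m + 1 + L) = (1 / 2) ^ (m + L) / 2 := by
        rw [show m + 1 + L = (m + L) + 1 by ring, pow_succ]; ring
      have h' : (1 / 2 : ℝ) ^ (m + (L + 1)) = (1 / 2) ^ (m + L) / 2 := by
        rw [show m + (L + 1) = (m + L) + 1 by ring, pow_succ]; ring
      rw [this, h']; ring
  rw [h]
  have : (0 : ℝ) < (1 / 2) ^ (m + L) := by positivity
  linarith

/-- the sum of all boxes -/
theorem total_le (hs : 0 < s) (hst : s < t) (m L : ℕ) (J : ℕ → ℕ → ℚ × ℚ) (v : ℕ → ℕ → ℕ)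
    (h : ∀ β < L, ∑ n ∈ Finset.range L, len (J β n) ^ s ≤ (1 / 2) ^ (m + 1 + β)) :
    ∑ N ∈ Finset.range L,
      diam (BX s t (v (tr N).1 (tr N).2.1) (J (tr N).1 (tr N).2.1) (tr N).2.2) ^ t ≤
        (1 / 2) ^ m := by
  classical
  let w : ℕ × ℕ × ℕ → ℝ := fun x => diam (BX s t (v x.1 x.2.1) (J x.1 x.2.1) x.2.2) ^ t
  have hw : ∀ x, 0 ≤ w x := fun x => Real.rpow_nonneg (diam_nonneg _) _
  have h1 : ∑ N ∈ Finset.range L, w (tr N) = ∑ x ∈ (Finset.range L).image tr, w x :=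
    (Finset.sum_image fun a _ b _ hab => tr_inj hab).symm
  have h2 : ∑ x ∈ (Finset.range L).image tr, w x ≤
      ∑ x ∈ Finset.range L ×ˢ (Finset.range L ×ˢ Finset.range L), w x := by
    refine Finset.sum_le_sum_of_subset_of_nonneg ?_ fun x _ _ => hw x
    intro x hx
    obtain ⟨N, hN, rfl⟩ := Finset.mem_image.1 hx
    have := tr_lt (Finset.mem_range.1 hN)
    simp only [Finset.mem_product, Finset.mem_range]
    exact this
  have h3 : ∑ x ∈ Finset.range L ×ˢ (Finset.range L ×ˢ Finset.range L), w x ≤ (1 / 2) ^ m := by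
    rw [Finset.sum_product]
    refine le_trans (Finset.sum_le_sum fun β hβ => ?_) (geom_le m L)
    rw [Finset.sum_product]
    refine le_trans (Finset.sum_le_sum fun n _ => ?_) (h β (Finset.mem_range.1 hβ))
    exact sum_BX_le hs hst (v β n) (J β n) L
  show ∑ N ∈ Finset.range L, w (tr N) ≤ _
  rw [h1]
  exact h2.trans h3

/-- the number of the covering used at `β` -/
def ix (m D T β : ℕ) : ℕ := m + 1 + β + D * (β + T)

theorem aa_le (hs : 0 < s) (hst : s < t) {m D T β : ℕ} (hD : s ≤ D * (t - s)) (hT : t ≤ T)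
    {J : ℚ × ℚ} (hJ : 0 < len J) (h : len J ^ s ≤ (1 / 2) ^ ix m D T β) :
    aa s t J ≤ (1 / 2) ^ β := by
  have h1 : len J ^ (t - s) = (len J ^ s) ^ ((t - s) / s) := by
    rw [← Real.rpow_mul hJ.le, mul_div_cancel₀ _ hs.ne']
  have h2 : 0 ≤ (t - s) / s := div_nonneg (by linarith) hs.le
  have h3 : len J ^ (t - s) ≤ ((1 / 2 : ℝ) ^ ix m D T β) ^ ((t - s) / s) := by
    rw [h1]
    exact Real.rpow_le_rpow (Real.rpow_nonneg hJ.le _) h h2
  have h4 : ((1 / 2 : ℝ) ^ ix m D T β) ^ ((t - s) / s) =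
      (1 / 2 : ℝ) ^ ((ix m D T β : ℝ) * ((t - s) / s)) := by
    rw [← Real.rpow_natCast, ← Real.rpow_mul (by norm_num)]
  have h5 : (β : ℝ) + T ≤ (ix m D T β : ℝ) * ((t - s) / s) := by
    have h6 : ((D : ℝ) * (β + T)) ≤ (ix m D T β : ℝ) := by
      unfold ix
      push_cast
      have : (0 : ℝ) ≤ m := by positivity
      have : (0 : ℝ) ≤ β := by positivity
      linarith
    have h7 : 1 ≤ (D : ℝ) * ((t - s) / s) := by
      rw [← mul_div_assoc, le_div_iff₀ hs, one_mul]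
      exact hD
    calc (β : ℝ) + T = 1 * ((β : ℝ) + T) := by ring
      _ ≤ ((D : ℝ) * ((t - s) / s)) * ((β : ℝ) + T) :=
          mul_le_mul_of_nonneg_right h7 (by positivity)
      _ = ((D : ℝ) * (β + T)) * ((t - s) / s) := by ring
      _ ≤ _ := mul_le_mul_of_nonneg_right h6 h2
  have h8 : (1 / 2 : ℝ) ^ ((ix m D T β : ℝ) * ((t - s) / s)) ≤ (1 / 2 : ℝ) ^ ((β : ℝ) + t) :=
    Real.rpow_le_rpow_of_exponent_ge (by norm_num) (by norm_num) (by linarith)
  have h9 : (1 / 2 : ℝ) ^ ((β : ℝ) + t) = (1 / 2) ^ β * (1 / 2 : ℝ) ^ t := by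
    rw [Real.rpow_add (by norm_num), Real.rpow_natCast]
  have h10 : (2 : ℝ) ^ t * (1 / 2 : ℝ) ^ t = 1 := by
    rw [← Real.mul_rpow (by norm_num) (by norm_num)]
    norm_num
  have h11 : (0 : ℝ) < 2 ^ t := Real.rpow_pos_of_pos (by norm_num) _
  calc aa s t J = 2 ^ t * len J ^ (t - s) := rfl
    _ ≤ 2 ^ t * ((1 / 2) ^ β * (1 / 2 : ℝ) ^ t) := by
        refine mul_le_mul_of_nonneg_left ?_ h11.le
        rw [← h9]
        exact (h3.trans_eq h4).trans h8
    _ = (1 / 2) ^ β * (2 ^ t * (1 / 2 : ℝ) ^ t) := by ring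
    _ = (1 / 2) ^ β := by rw [h10, mul_one]

theorem ix_ge (m D T β : ℕ) : m + 1 + β ≤ ix m D T β := Nat.le_add_right _ _

end Pool.Agent.Y530.KG
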